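import Pool.Agent.H71.AL.Targets

/-!
# Row FIN of `alv_modules`: orbits are discrete in good intervals
-/

set_option autoImplicit false

open Set
open Pool.Agent.AL

namespace Pool.Agent.H61.ALV

/-- a good interval contains at most one point of every orbit -/
theorem orb_sub {ι : Type} {G : ι → ℝ → ℝ} (hG : Gp rl G) {p q : ℝ} (hpq : Gd rl G p q) (c : ℝ) :
    {x | (∃ i, G i c = x) ∧ p < x ∧ x < q}.Subsingleton := by
  rintro x ⟨⟨i, rfl⟩, h1, h2⟩ y ⟨⟨j, rfl⟩, h3, h4⟩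
  obtain ⟨i', hi', -⟩ := hG.inv i
  obtain ⟨k, hk⟩ := hG.mul j i'
  have h5 : G k (G i c) = G j c := by rw [hk, hi']
  rcases hpq.2 k with h6 | h6
  · exact absurd ⟨by rw [h5]; exact h3, by rw [h5]; exact h4⟩ (h6 (G i c) h1 h2)
  · rw [← h5, h6 (G i c) h1 h2]

/-- FIN: orbits are discrete in good intervals. -/
theorem pf_FIN : T_FIN := by
  intro ι G hG a b h c
  have h1 : ∀ z : ℝ, ∃ pq : ℝ × ℝ, z ∈ Icc a b → Gd rl G pq.1 pq.2 ∧ pq.1 < z ∧ z < pq.2 := by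
    intro z
    by_cases hz : z ∈ Icc a b
    · obtain ⟨p, q, h1, h2, h3⟩ := h z hz.1 hz.2
      exact ⟨(p, q), fun _ => ⟨h1, h2, h3⟩⟩
    · exact ⟨(0, 0), fun h => absurd h hz⟩
  choose pq hpq using h1
  obtain ⟨t, ht1, ht2⟩ := (isCompact_Icc (a := a) (b := b)).elim_nhds_subcover
    (fun z => Ioo (pq z).1 (pq z).2) fun z hz => Ioo_mem_nhds (hpq z hz).2.1 (hpq z hz).2.2
  have h2 : {x | (∃ i, G i c = x) ∧ a ≤ x ∧ x ≤ b} ⊆
      ⋃ z ∈ t, {x | (∃ i, G i c = x) ∧ (pq z).1 < x ∧ x < (pq z).2} := by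
    rintro x ⟨hx, h3, h4⟩
    have h5 := ht2 (show x ∈ Icc a b from ⟨h3, h4⟩)
    simp only [mem_iUnion] at h5 ⊢
    obtain ⟨z, hz, h6⟩ := h5
    exact ⟨z, hz, hx, h6.1, h6.2⟩
  refine Set.Finite.subset ?_ h2
  exact Set.Finite.biUnion t.finite_toSet fun z hz =>
    (orb_sub hG (hpq z (ht1 z hz)).1 c).finite

end Pool.Agent.H61.ALV
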